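import Mathlib
import Pool.Agent.H71.LPS4

namespace Pool.Agent.Results.MP_27feec_al.Quot

open Filter Topology
open scoped Pointwise

/-- `(G, τ)` is locally minimal: for some neighbourhood `V` of zero, every coarser Hausdorff group
topology in which `V` is still a neighbourhood of zero equals `τ`
(in Mathlib's order `τ ≤ σ` says that `σ` is coarser than `τ`). -/
def LocallyMinimal (G : Type) [AddCommGroup G] [τ : TopologicalSpace G] : Prop :=
  ∃ V ∈ @nhds G τ 0, ∀ σ : TopologicalSpace G, @IsTopologicalAddGroup G σ _ → @T2Space G σ →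
    τ ≤ σ → V ∈ @nhds G σ 0 → σ = τ

theorem result : ∀ (G : Type) [AddCommGroup G] [UniformSpace G] [IsUniformAddGroup G] [T2Space G]
    [CompleteSpace G], LocallyMinimal G → ∀ K : AddSubgroup G, IsCompact (K : Set G) →
      LocallyMinimal (G ⧸ K) := by
  rintro G _ _ _ _ _ ⟨U, hU, h⟩ K hK
  obtain ⟨U', h1, h2⟩ := H71.LPS.main_add hU h hK
  let π : G →+ G ⧸ K := QuotientAddGroup.mk' K
  have cπ : Continuous π := QuotientAddGroup.continuous_mk
  have key : ∀ (𝓖 : Filter (G ⧸ K)) (V : ℕ → Set (G ⧸ K)), 𝓝 0 ≤ 𝓖 → (∀ n, V n ∈ 𝓖) →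
      (∀ n, ∀ x ∈ V n, -x ∈ V n) → (∀ n, ∀ x ∈ V (n + 1), ∀ y ∈ V (n + 1), x + y ∈ V n) →
      V 0 ⊆ π '' U' → (∀ k, IsCompact k → 0 ∉ k → ∃ S ∈ 𝓖, ∀ v ∈ S, ∀ w ∈ S, v - w ∈ kᶜ) →
      𝓖 ≤ 𝓝 0 := fun 𝓖 V le a b c d sep O hO => by
    obtain ⟨C, cC, hC, -⟩ := h2 (fun n => π ⁻¹' V n)
      (fun n => by simpa using mem_of_mem_nhds (le (a n)))
      (fun n x hx => by simpa using b n _ hx) (fun n x hx y hy => by simpa using c n _ hx _ hy)
      fun x hx => by
        obtain ⟨u, hu, e⟩ := d hx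
        exact ⟨-u + x, QuotientAddGroup.eq.1 e, u, hu, by simp⟩
    obtain ⟨O1, o1, o2⟩ := exists_nhds_zero_half hO
    obtain ⟨S, t1, t2⟩ := sep _ ((cC.image cπ).diff (isOpen_interior (s := O1)))
      fun h => h.2 (mem_interior_iff_mem_nhds.2 o1)
    obtain ⟨n, hn⟩ := hC _ (cπ.tendsto' 0 0 (map_zero π) (inter_mem (le t1) o1))
    refine mem_of_superset (inter_mem t1 (a n)) fun y hy => ?_
    obtain ⟨x, rfl⟩ := QuotientAddGroup.mk'_surjective K y
    obtain ⟨z, hz, q, hq, rfl⟩ := hn hy.2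
    have := t2 _ hy.1 _ hq.1
    rw [map_add, add_sub_cancel_right] at this
    rw [map_add]
    exact o2 _ (interior_subset (not_not.1 fun h => this ⟨⟨z, hz, rfl⟩, h⟩)) _ hq.2
  have i : IsTopologicalAddGroup (G ⧸ K) := inferInstance
  refine ⟨π '' U', QuotientAddGroup.isOpenMap_coe.image_mem_nhds h1, fun σ s1 s2 s3 s4 =>
    s1.ext i (le_antisymm ?_ (nhds_mono s3))⟩
  obtain ⟨V, a, b, c, d⟩ := H71.LPS.exists_chain s4
  refine key _ V (nhds_mono s3) a b c d fun k hk h0 => exists_nhds_half_neg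
    (IsOpen.mem_nhds (IsCompact.isClosed ?_).isOpen_compl h0)
  simpa using @IsCompact.image _ _ (QuotientAddGroup.instTopologicalSpace K) σ _ id hk
    (continuous_id_of_le s3)

end Pool.Agent.Results.MP_27feec_al.Quot
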